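import Pool.Agent.H87.EBK.Stmts

/-! Row STA of board ebk: the third edge `a b / c`. -/

namespace Pool.EBK

theorem sta : STA := by
  intro a b c ha hb ⟨hc, ⟨r, hr⟩, ⟨s, hs⟩⟩
  refine ⟨⟨by positivity, ⟨a / c * s, ?_⟩, ⟨b / c * r, ?_⟩⟩, ?_⟩
  · have h1 : a ^ 2 + (a * b / c) ^ 2 = (a / c) ^ 2 * (b ^ 2 + c ^ 2) := by
      field_simp
      ring
    rw [h1, hs]
    ring
  · have h1 : b ^ 2 + (a * b / c) ^ 2 = (b / c) ^ 2 * (a ^ 2 + c ^ 2) := by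
      field_simp
      ring
    rw [h1, hr]
    ring
  · have ha0 : a ≠ 0 := ha.ne'
    have hb0 : b ≠ 0 := hb.ne'
    have hc0 : c ≠ 0 := hc.ne'
    have hfact : Fact (Nat.Prime 2) := ⟨Nat.prime_two⟩
    unfold v
    rw [padicValRat.div (mul_ne_zero ha0 hb0) hc0, padicValRat.mul ha0 hb0]

end Pool.EBK
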